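import Mathlib
import Pool.Agent.Q103.SDV.Uniform
import Pool.Agent.Withdrawn.MP_a793bb_nt_SmallDigitPoints

/-!
# Vojta's inequality for all points of all curves above the points of the line that are composed of
numbers with small digits, over all number fields

Let `X` be a smooth projective curve over a number field, `D` a reduced effective divisor on `X`
and `f : X → ℙ¹` a finite map of degree `N` over `ℚ` which is unramified outside the fibres over
three rational points `a_0, a_1, a_2` and maps the points of `D` to the `a_j` (such a map exists by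
Belyi's theorem; we may suppose that `a_j ≠ ∞`). Let `A` be the ring of functions on `X` with poles
only over `∞`: a Dedekind domain, finite over `ℚ[f]`. Let `y_{j 0} = f - a_j, y_{j 1}, …` be
generators of the radical of the ideal `(f - a_j)`, the ideal of the reduced fibre `F_j` over
`a_j`. Then `F = ∑ F_j ≥ D`, and
`(deg K_X) / N = 1 - (∑_j dim (A / (y_{j 0}, y_{j 1}, …))) / N`.

The points `P` of `X` (not over `∞`) over a number field `L` are the homomorphisms `φ : A → L`, and
`λ_v(P) = ∑_j max(0, - log max_i |y_{j i}(P)|_v)` is a Weil function of `F` at `v`.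

We prove Vojta's inequality, with a gain and without the constant, for all points `P` of `X`, of
every degree and over all number fields `L`, above the points `x ∈ K`, `K ⊆ L`, of the line for
which the three numbers `x - a_j` are, up to fixed constants and a common factor, composed of numbers
with small digits in a large base.
-/

set_option autoImplicit false

namespace Pool.Agent.Results.MP_71c16a_nt.SmallDigitPoints

open Polynomial IsDedekindDomain NumberField
open Pool.Agent.Results.MP_71c16a_nt.AllCurvesProximity (height coord proximity logDisc)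
open Pool.Agent.Results.MP_a793bb_nt.SmallDigitPoints (Small point unequal logN)

/-- The point `P = (P 0 : P 1 : P 2)` of the line `P 0 + P 1 + P 2 = 0` belongs to `x`: up to a common
factor `P 0 = (a 1 - a 2) (x - a 0)`, `P 1 = (a 2 - a 0) (x - a 1)`, `P 2 = (a 0 - a 1) (x - a 2)`. -/
def Belongs {K : Type} [Field K] [NumberField K] (a : Fin 3 → ℚ) (P : Fin 3 → 𝓞 K) (x : K) :
    Prop :=
  ∃ s : K, s ≠ 0 ∧ ∀ j : Fin 3, (P j : K) = s * ((a (j + 1) : K) - (a (j + 2) : K)) * (x - (a j : K))

/-- the point `x` is composed of numbers with small digits in the base `t`: some point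
`P = (P 0 : P 1 : P 2)` belonging to it has coordinates `P k = b k * ∏ i, F i (t) ^ e k i` as in
`Small`, not all exponent vectors are the same, and the product of the `F i (t)` with different
exponents is squarefree -/
def Composed {K : Type} [Field K] [NumberField K] (a : Fin 3 → ℚ) (D : ℕ) (δ T : ℝ) (t : 𝓞 K)
    (x : K) : Prop :=
  ∃ (n : ℕ) (F : Fin n → (𝓞 K)[X]) (b : Fin 3 → 𝓞 K) (e : Fin 3 → Fin n → ℕ),
    Small D δ T t F b e ∧ (unequal e).Nonempty ∧
    Squarefree (Ideal.span {∏ i ∈ unequal e, (F i).eval t}) ∧ Belongs a (point t F b e) x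

open Pool.Agent.Q103.SDV Pool.Agent.W223.CV in
private theorem rad_eq {K : Type} [Field K] [NumberField K] (P : Fin 3 → 𝓞 K) :
    Pool.Agent.Results.MP_a793bb_nt.SmallDigitPoints.rad P =
      cc ∅ (Bad P) / Module.finrank ℚ K := by
  unfold Pool.Agent.Results.MP_a793bb_nt.SmallDigitPoints.rad cc
  congr 1
  apply finsum_congr
  intro v
  unfold ct
  by_cases h : Bad P v
  · rw [if_pos ⟨by simp, h⟩]
    exact finsum_eq_if.trans (if_pos h)
  · rw [if_neg (fun h1 => h h1.2)]
    exact finsum_eq_if.trans (if_neg h)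

/-- **Vojta's inequality above the points composed of numbers with small digits.** Let `A` be a
Dedekind domain, finite over `ℚ[f]` and containing it (the ring of functions of a smooth affine curve
which is finite over the `f`-line), let `a_0, a_1, a_2` be distinct rational numbers and
`y_{j 0} = f - a_j, y_{j 1}, …, y_{j u_j}` elements of the radical of the ideal `(f - a_j)`, for
instance generators. For all `D` and `ε > 0` there are `δ > 0` and `T₀` such that
`m_S(F, P) + (degree - 2 - ε) h(x) + (1 - ε) log |N(t)| / [K : ℚ] ≤ d(L) + ∑_{p ∈ S} log p`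
for all `T ≥ T₀`, all number fields `K`, all bases `t`, all `x ∈ K` composed of numbers with small
digits, all number fields `L` containing `K`, all points `P` of the curve over `L` with `f(P) = x` and
all finite sets `S` of primes. The constants do not depend on `K`, `L` and their degrees. -/
theorem result :
    ∀ (A : Type) [CommRing A] [IsDedekindDomain A] [Algebra ℚ A] [Algebra ℚ[X] A]
      [IsScalarTower ℚ ℚ[X] A] [Module.Finite ℚ[X] A] [FaithfulSMul ℚ[X] A]
      (a : Fin 3 → ℚ), Function.Injective a →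
    ∀ (u : Fin 3 → ℕ) (y : ∀ j, Fin (u j + 1) → A),
    (∀ j, y j 0 = coord A - algebraMap ℚ[X] A (C (a j))) →
    (∀ j i, y j i ∈ (Ideal.span {coord A - algebraMap ℚ[X] A (C (a j))}).radical) →
    ∀ (D : ℕ) (ε : ℝ), 0 < ε → ∃ δ : ℝ, 0 < δ ∧ ∃ T₀ : ℝ, 1 ≤ T₀ ∧ ∀ T : ℝ, T₀ ≤ T →
    ∀ (K : Type) [Field K] [NumberField K] (t : 𝓞 K) (x : K), Composed a D δ T t x →
    ∀ (L : Type) [Field L] [NumberField L] [Algebra K L] (φ : A →+* L) (S : Finset ℕ),
      φ (coord A) = algebraMap K L x → (∀ p ∈ S, p.Prime) →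
      proximity S u y L φ + (AllCurvesProximity.degree u y - 2 - ε) * height x +
        (1 - ε) * logN t ≤ logDisc L + ∑ p ∈ S, Real.log p := by
  intro A _ _ _ _ _ _ _ a ha u y hy0 hyr D ε hε
  obtain ⟨η, hη⟩ : ∃ η, η = min ε 1 / 2 := ⟨_, rfl⟩
  have hη0 : 0 < η := by rw [hη]; positivity
  have hηε : η ≤ ε / 2 := by
    rw [hη]
    have := min_le_left ε 1
    linarith
  have hη1 : η ≤ 1 / 2 := by
    rw [hη]
    have := min_le_right ε 1
    linarith
  obtain ⟨S₀, C₀, G, hS₀, hG, hcov⟩ := Pool.Agent.Q103.SDV.cover A a u y hy0 hyr η hη0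
  obtain ⟨C₁, hC₁, hmob⟩ := Pool.Agent.Q103.SDV.height_mob a ha
  obtain ⟨C₂, hC₂, hroot⟩ := Pool.Agent.Q103.SDV.root_height G hG
  obtain ⟨C₃, hC₃⟩ : ∃ C₃ : ℝ, C₃ = ∑ p ∈ (Pool.Agent.W337.AC.MOBC.MM a S₀).primeFactors,
    Real.log p := ⟨_, rfl⟩
  obtain ⟨δ, hδ, T₁, hT₁, hmain⟩ :=
    Pool.Agent.Results.MP_a793bb_nt.SmallDigitPoints.result D η hη0
  obtain ⟨B, hB⟩ : ∃ B : ℝ, B = max (2 * (C₂ + C₁) + Real.log 2 + 1) 0 * 2 +
    max (C₀ + C₁ + C₃) 0 * (2 / ε) := ⟨_, rfl⟩
  refine ⟨δ, hδ, max T₁ (Real.exp B), hT₁.trans (le_max_left _ _), ?_⟩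
  intro T hT K _ _ t x hx L _ _ _ φ S hφ hS
  obtain ⟨n, F, b, e, hsm, hU, hsq, s, hs0, hs⟩ := hx
  have hTT : T₁ ≤ T := (le_max_left _ _).trans hT
  have hT0 : 1 ≤ T := hT₁.trans hTT
  have hlogT : B ≤ Real.log T := by
    have h1 := Real.log_le_log (Real.exp_pos B) ((le_max_right T₁ _).trans hT)
    rwa [Real.log_exp] at h1
  -- the three coordinates
  obtain ⟨P, hP⟩ : ∃ P, P = point t F b e := ⟨_, rfl⟩
  rw [← hP] at hs
  have e0 := hs 0
  have e1 := hs 1
  have e2 := hs 2
  have i01 : (0 : Fin 3) + 1 = 1 := rfl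
  have i02 : (0 : Fin 3) + 2 = 2 := rfl
  have i11 : (1 : Fin 3) + 1 = 2 := rfl
  have i12 : (1 : Fin 3) + 2 = 0 := rfl
  have i21 : (2 : Fin 3) + 1 = 0 := rfl
  have i22 : (2 : Fin 3) + 2 = 1 := rfl
  rw [i01, i02] at e0
  rw [i11, i12] at e1
  rw [i21, i22] at e2
  have hsumK : (P 0 : K) + P 1 + P 2 = 0 := by
    rw [e0, e1, e2]
    ring
  have hsum : P 0 + P 1 + P 2 = 0 := by
    apply RingOfIntegers.coe_injective
    push_cast
    exact hsumK
  have hd : (0 : ℝ) < Module.finrank ℚ K := by exact_mod_cast Module.finrank_pos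
  have hsum' : point t F b e 0 + point t F b e 1 + point t F b e 2 = 0 := by rw [← hP]; exact hsum
  obtain ⟨hm1, hm2⟩ := hmain T hTT K n t F b e hsm hsum' hU
  have hm2 := hm2 hsq
  rw [← hP, rad_eq] at hm2
  -- `log |N(t)| / d ≥ log T`
  have ht0 : t ≠ 0 := by
    rintro rfl
    obtain ⟨σ⟩ : Nonempty (K →+* ℂ) := inferInstance
    have h1 := hsm.base σ
    simp at h1
    linarith
  have hNt : Real.log T ≤ logN t := by
    unfold Pool.Agent.Results.MP_a793bb_nt.SmallDigitPoints.logN
    rw [le_div_iff₀ hd, ← Pool.Agent.Q103.SD.NF.log_norm t ht0, mul_comm,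
      ← InfinitePlace.sum_mult_eq]
    push_cast
    rw [Finset.sum_mul]
    apply Finset.sum_le_sum
    intro w _
    apply mul_le_mul_of_nonneg_left _ (Nat.cast_nonneg _)
    apply Real.log_le_log (by linarith)
    rw [← InfinitePlace.norm_embedding_eq]
    exact hsm.base w.embedding
  have hB2 : 2 * (C₂ + C₁) + Real.log 2 + 1 ≤ Real.log T / 2 := by
    have h1 := le_max_left (2 * (C₂ + C₁) + Real.log 2 + 1) 0
    have h2 : 0 ≤ max (C₀ + C₁ + C₃) 0 * (2 / ε) :=
      mul_nonneg (le_max_right _ _) (by positivity)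
    linarith
  have hB3 : C₀ + C₁ + C₃ ≤ ε / 2 * Real.log T := by
    have h1 : 0 ≤ max (2 * (C₂ + C₁) + Real.log 2 + 1) 0 * 2 :=
      mul_nonneg (le_max_right _ _) (by norm_num)
    have h2 : max (C₀ + C₁ + C₃) 0 * (2 / ε) ≤ Real.log T := by linarith
    have h3 : max (C₀ + C₁ + C₃) 0 ≤ ε / 2 * Real.log T := by
      calc max (C₀ + C₁ + C₃) 0 = ε / 2 * (max (C₀ + C₁ + C₃) 0 * (2 / ε)) := by
            field_simp
        _ ≤ ε / 2 * Real.log T := mul_le_mul_of_nonneg_left h2 (by positivity)
    exact (le_max_left _ _).trans h3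
  have hlog2 : 0 ≤ Real.log 2 := Real.log_nonneg (by norm_num)
  have hlT : 0 < Real.log T := by linarith
  have hNt0 : 0 < logN t := by linarith
  -- the coordinates are not zero
  have hh0 : 0 ≤ Pool.Agent.Results.MP_a793bb_nt.SmallDigitPoints.h (point t F b e) := by
    unfold Pool.Agent.Results.MP_a793bb_nt.SmallDigitPoints.h
    exact div_nonneg (Height.logHeight_nonneg _) hd.le
  have hval : ∀ i ∈ unequal e, (F i).eval t ≠ 0 := by
    intro i hi h0
    have h1 : ∏ i ∈ unequal e, (F i).eval t = 0 := Finset.prod_eq_zero hi h0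
    rw [h1] at hm1
    have h2 : logN (0 : 𝓞 K) = 0 := by
      unfold Pool.Agent.Results.MP_a793bb_nt.SmallDigitPoints.logN
      simp
    rw [h2] at hm1
    nlinarith
  have hP0 : ∀ k, P k ≠ 0 := by
    intro k hk
    have h1 : point t F b e k = 0 := by rw [← hP]; exact hk
    unfold Pool.Agent.Results.MP_a793bb_nt.SmallDigitPoints.point at h1
    rcases mul_eq_zero.mp h1 with h2 | h2
    · exact hsm.ne_zero k h2
    · obtain ⟨i, -, h3⟩ := Finset.prod_eq_zero_iff.mp h2
      have h4 : (F i).eval t = 0 := eq_zero_of_pow_eq_zero h3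
      have h5 : e k i ≠ 0 := by
        intro h
        rw [h, pow_zero] at h3
        exact one_ne_zero h3
      have h6 : i ∉ unequal e := fun h => hval i h h4
      unfold Pool.Agent.Results.MP_a793bb_nt.SmallDigitPoints.unequal at h6
      rw [Finset.mem_filter] at h6
      have h6' : e 0 i = e 1 i ∧ e 1 i = e 2 i := by
        by_contra h
        exact h6 ⟨Finset.mem_univ i, h⟩
      obtain ⟨h7, h8⟩ := h6'
      have h7' : ∀ k', e k' i = e 0 i := by
        intro k'
        fin_cases k'
        · rfl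
        · exact h7.symm
        · exact (h7.trans h8).symm
      have h9 : ∀ k', e k' i ≠ 0 := by
        intro k'
        rw [h7' k', ← h7' k]
        exact h5
      have h10 : ∀ k', P k' = 0 := by
        intro k'
        rw [hP]
        unfold Pool.Agent.Results.MP_a793bb_nt.SmallDigitPoints.point
        rw [Finset.prod_eq_zero (Finset.mem_univ i), mul_zero]
        rw [h4, zero_pow (h9 k')]
      have h11 : ∀ i j : Fin 3, i ≠ j → (a i : K) - (a j : K) ≠ 0 := fun i j hij =>
        sub_ne_zero.2 fun h => hij (ha (by exact_mod_cast h))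
      have h12 : x - (a 0 : K) = 0 := by
        have h13 : s * ((a 1 : K) - (a 2 : K)) * (x - (a 0 : K)) = 0 := by
          rw [← e0, h10]
          rfl
        exact (mul_eq_zero.mp h13).resolve_left (mul_ne_zero hs0 (h11 1 2 (by decide)))
      have h14 : x - (a 1 : K) = 0 := by
        have h13 : s * ((a 2 : K) - (a 0 : K)) * (x - (a 1 : K)) = 0 := by
          rw [← e1, h10]
          rfl
        exact (mul_eq_zero.mp h13).resolve_left (mul_ne_zero hs0 (h11 2 0 (by decide)))
      apply h11 1 0 (by decide)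
      linear_combination h12 - h14
  have hPK : ∀ k, (P k : K) ≠ 0 := fun k => RingOfIntegers.coe_ne_zero_iff.mpr (hP0 k)
  have hxa : ∀ j, x ≠ (a j : K) := by
    intro j hj
    apply hPK j
    rw [hs j, hj, sub_self, mul_zero]
  have hne : ∀ i j : Fin 3, i ≠ j → (a i : K) - (a j : K) ≠ 0 := fun i j hij =>
    sub_ne_zero.2 fun h => hij (ha (by exact_mod_cast h))
  have hm : Pool.Agent.W223.AC.mob a x * (P 2 : K) = -(P 0 : K) := by
    have h1 := sub_ne_zero.2 (hxa 2)
    have h2 := hne 1 0 (by decide)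
    rw [e0, e2]
    unfold Pool.Agent.W223.AC.mob
    field_simp
    ring
  have k1 := Pool.Agent.Q103.SDV.rad_le a ha S₀ hS₀ x hxa P hP0 hsum hm
  have k2 := Pool.Agent.Q103.SDV.rad_le_height P hP0 hsum _ hm
  have k3 := Pool.Agent.Q103.SDV.log_mob_le P hP0 _ hm
  obtain ⟨k4, k5⟩ := hmob K x hxa
  have hhP : Pool.Agent.Results.MP_a793bb_nt.SmallDigitPoints.h P =
      Height.logHeight (fun k => (P k : K)) / Module.finrank ℚ K := rfl
  rw [hhP] at hm2
  have hhx : Height.logHeight₁ x = Module.finrank ℚ K * height x := by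
    have := Pool.Agent.W223.AC.MK.height_eq x
    exact this
  -- everything divided by the degree
  obtain ⟨d, hdd⟩ : ∃ d : ℝ, d = Module.finrank ℚ K := ⟨_, rfl⟩
  rw [← hdd] at hd hm2 k1 k2 k4 k5 hhx
  obtain ⟨R, hR⟩ : ∃ R, R = Pool.Agent.W223.CV.cc ∅ (Pool.Agent.Q103.SDV.Bad P) := ⟨_, rfl⟩
  obtain ⟨H, hH⟩ : ∃ H, H = Height.logHeight (fun k => (P k : K)) := ⟨_, rfl⟩
  obtain ⟨Y, hY⟩ : ∃ Y, Y = Height.logHeight₁ (Pool.Agent.W223.AC.mob a x) := ⟨_, rfl⟩
  obtain ⟨N, hN⟩ : ∃ N, N = Pool.Agent.W223.VD.cnt S₀ (fun j => Pool.Agent.W223.AC.pt (a j)) x :=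
    ⟨_, rfl⟩
  rw [← hR, ← hH] at hm2
  rw [← hR, ← hN, ← hC₃] at k1
  rw [← hR, ← hY] at k2
  rw [← hY, ← hH] at k3
  rw [← hY] at k4 k5
  have m1 : H + (1 - η) * logN t * d ≤ R := by
    rw [le_div_iff₀ hd] at hm2
    have h1 : H / d * d = H := div_mul_cancel₀ _ hd.ne'
    nlinarith
  -- `x` is not a root of `G`
  have hGx : aeval x G ≠ 0 := by
    intro h0
    have h1 := hroot K x h0
    rw [← hdd] at h1
    have h2 : Y ≤ d * (C₁ + C₂) := by nlinarith
    have h3 : (1 - η) * logN t * d ≤ 2 * Y + d * Real.log 2 := by linarith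
    have h4 : (1 - η) * logN t * d ≤ (2 * (C₂ + C₁) + Real.log 2) * d := by nlinarith
    have h5 := le_of_mul_le_mul_right h4 hd
    nlinarith
  have c1 := hcov K x hGx hxa L φ S hφ hS
  rw [← hN, ← hdd] at c1
  have m2 : height x + (1 - η) * logN t ≤ N / d + C₃ + C₁ := by
    have h1 : d * height x ≤ Y + d * C₁ := by rw [← hhx]; exact k4
    have h2 : d * height x + (1 - η) * logN t * d ≤ N + d * C₃ + d * C₁ := by linarith
    have h3 : N / d * d = N := div_mul_cancel₀ _ hd.ne'
    nlinarith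
  have hx0 : 0 ≤ height x := by
    have h1 := Height.zero_le_logHeight₁ x
    rw [hhx] at h1
    exact (mul_nonneg_iff_of_pos_left hd).mp h1
  have m3 : C₀ + C₁ + C₃ ≤ (ε - η) * logN t := by
    have h1 : ε / 2 * Real.log T ≤ (ε - η) * logN t :=
      mul_le_mul (by linarith) hNt hlT.le (by linarith)
    linarith
  have m4 : η * height x ≤ ε * height x := mul_le_mul_of_nonneg_right (by linarith) hx0
  linarith

end Pool.Agent.Results.MP_71c16a_nt.SmallDigitPoints
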